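import Pool.Agent.Helper36_X1.Stmts2

/-!
# Squad X1, module PRX: an automorphism which stabilises `U` permutes the simple roots
-/

open scoped BigOperators

noncomputable section

namespace Pool.Agent.PP.X1.H6

open Pool.Agent.Helper51_AWC Pool.Agent.Helper79_WRA Pool.Agent.PP

/-- an order automorphism of the lattice of the subsets is given by a permutation -/
theorem exists_perm {r : ℕ} (f : Finset (Fin r) → Finset (Fin r))
    (hf : ∀ K K', K ⊆ K' ↔ f K ⊆ f K') (hs : Function.Surjective f) :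
    ∃ π : Equiv.Perm (Fin r), ∀ K, f K = K.map π.toEmbedding := by
  have hinj : Function.Injective f := by
    intro K K' h
    exact Finset.Subset.antisymm ((hf K K').2 h.le) ((hf K' K).2 h.ge)
  have h0 : f ∅ = ∅ := by
    obtain ⟨K, hK⟩ := hs ∅
    have h1 := (hf ∅ K).1 (Finset.empty_subset K)
    rw [hK] at h1
    exact Finset.subset_empty.1 h1
  have h1 : ∀ i : Fin r, ∃ j : Fin r, f {i} = {j} := by
    intro i
    have h2 : f {i} ≠ ∅ := by
      intro h3
      have h4 := hinj (h3.trans h0.symm)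
      exact Finset.singleton_ne_empty i h4
    obtain ⟨j, hj⟩ := Finset.nonempty_iff_ne_empty.2 h2
    refine ⟨j, ?_⟩
    obtain ⟨K, hK⟩ := hs {j}
    have h5 : K ⊆ {i} := (hf K {i}).2 (by rw [hK]; exact Finset.singleton_subset_iff.2 hj)
    rcases Finset.subset_singleton_iff.1 h5 with h6 | h6
    · rw [h6, h0] at hK
      exact absurd hK.symm (Finset.singleton_ne_empty j)
    · rw [← h6, hK]
  choose p hp using h1
  have hpi : Function.Injective p := by
    intro i i' h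
    have h2 : f {i} = f {i'} := by rw [hp, hp, h]
    exact Finset.singleton_injective (hinj h2)
  have hpb : Function.Bijective p := Finite.injective_iff_bijective.1 hpi
  refine ⟨Equiv.ofBijective p hpb, fun K => ?_⟩
  ext j
  obtain ⟨i, rfl⟩ := hpb.2 j
  rw [← Finset.singleton_subset_iff, ← hp, ← hf, Finset.singleton_subset_iff, Finset.mem_map]
  constructor
  · intro hi
    exact ⟨i, hi, rfl⟩
  · rintro ⟨i', hi', h⟩
    have h2 : i' = i := hpi h
    rwa [← h2]

section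

variable {ℓ : ℕ} {G : Type} [Group G] (R : RGD ℓ G)

theorem UJ_le_PJ (J : Finset (Fin R.r)) : R.UJ J ≤ R.PJ J :=
  (R.gp_mono fun _ h => Or.inl h.1).trans le_sup_right

theorem UJ_le_U (J : Finset (Fin R.r)) : R.UJ J ≤ R.U := R.gp_mono fun _ h => h.1

/-- one half for the unipotent radicals -/
theorem UJ_half [Fact ℓ.Prime] [Finite G] (syl : SylStmt) (par : ParStmt) (α : MulAut G)
    (K K' : Finset (Fin R.r)) (h : ∀ g, α g ∈ R.PJ K' ↔ g ∈ R.PJ K) :
    ∀ g ∈ R.UJ K, α g ∈ R.UJ K' := by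
  have h1 := (par ℓ G R K).1
  have h3 := (par ℓ G R K').2.2.1
  have hU := (syl ℓ G R).1
  have hle := h3 ((R.UJ K).map α.toMonoidHom) ?_ ?_ ?_
  · intro g hg
    exact hle ⟨g, hg, rfl⟩
  · rintro _ ⟨g, hg, rfl⟩
    exact (h g).2 (UJ_le_PJ R K hg)
  · exact (hU.to_le (UJ_le_U R K)).map _
  · rintro g hg _ ⟨x, hx, rfl⟩
    obtain ⟨g', rfl⟩ := α.surjective g
    refine ⟨g' * x * g'⁻¹, (h1 g').1 ((h g').1 hg) x hx, ?_⟩
    simp

theorem UJ_iff [Fact ℓ.Prime] [Finite G] (syl : SylStmt) (par : ParStmt) (α : MulAut G)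
    (K K' : Finset (Fin R.r)) (h : ∀ g, α g ∈ R.PJ K' ↔ g ∈ R.PJ K) (g : G) :
    α g ∈ R.UJ K' ↔ g ∈ R.UJ K := by
  refine ⟨fun hg => ?_, UJ_half R syl par α K K' h g⟩
  have h2 := UJ_half R syl par α⁻¹ K' K (fun g' => by
    rw [← h (α⁻¹ g')]
    simp) (α g) hg
  simpa using h2

end

/-- PRX -/
theorem prx (syl : SylStmt) (par : ParStmt) (bru : BruhStmt) : PrmxStmt := by
  intro ℓ _ G _ _ R α hα
  have hPO : ∀ K K', R.PJ K ≤ R.PJ K' ↔ K ⊆ K' := fun K K' => (par ℓ G R K).2.2.2.1 K'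
  have hov : ∀ H : Subgroup G, R.B ≤ H → ∃ J', H = R.PJ J' := (par ℓ G R ∅).2.2.2.2.2
  have hPe : R.PJ ∅ = R.B := (bru ℓ G R).2.2.2.1
  have hBP : ∀ K, R.B ≤ R.PJ K := fun K => by
    rw [← hPe, hPO]
    exact Finset.empty_subset K
  have hBn := (syl ℓ G R).2.2.1
  -- `B`
  have hBB : ∀ β : MulAut G, (∀ u, β u ∈ R.U ↔ u ∈ R.U) → ∀ b ∈ R.B, β b ∈ R.B := by
    intro β hβ b hb
    apply hBn
    intro x hx
    obtain ⟨x', rfl⟩ := β.surjective x
    have h1 : β b * β x' * (β b)⁻¹ = β (b * x' * b⁻¹) := by simp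
    rw [h1, hβ]
    exact R.B_U hb ((hβ x').1 hx)
  have hαi : ∀ u, α⁻¹ u ∈ R.U ↔ u ∈ R.U := by
    intro u
    rw [← hα (α⁻¹ u)]
    simp
  have hB : ∀ b, α b ∈ R.B ↔ b ∈ R.B := by
    intro b
    refine ⟨fun h => ?_, hBB α hα b⟩
    have h1 := hBB α⁻¹ hαi _ h
    simpa using h1
  -- the map of the subsets
  have hex : ∀ β : MulAut G, (∀ b, β b ∈ R.B ↔ b ∈ R.B) → ∀ K, ∃ K', ∀ g,
      β g ∈ R.PJ K' ↔ g ∈ R.PJ K := by
    intro β hβ K
    obtain ⟨K', hK'⟩ := hov ((R.PJ K).map β.toMonoidHom) (by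
      intro b hb
      obtain ⟨b', rfl⟩ := β.surjective b
      exact ⟨b', hBP K ((hβ b').1 hb), rfl⟩)
    refine ⟨K', fun g => ?_⟩
    rw [← hK']
    constructor
    · rintro ⟨g', hg', h⟩
      have h2 : g' = g := β.injective h
      rwa [← h2]
    · intro hg
      exact ⟨g, hg, rfl⟩
  choose f hf using hex α hB
  have hfo : ∀ K K', K ⊆ K' ↔ f K ⊆ f K' := by
    intro K K'
    rw [← hPO, ← hPO]
    constructor
    · intro h g hg
      obtain ⟨g', rfl⟩ := α.surjective g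
      rw [hf] at hg ⊢
      exact h hg
    · intro h g hg
      rw [← hf] at hg ⊢
      exact h hg
  have hinj : Function.Injective f := by
    intro K K' h
    exact Finset.Subset.antisymm ((hfo K K').2 h.le) ((hfo K' K).2 h.ge)
  obtain ⟨π, hπ⟩ := exists_perm f hfo (Finite.surjective_of_injective hinj)
  have hIs : IsPi R α π := by
    intro K g
    have h1 : ∀ g, α g ∈ R.PJ (K.map π.toEmbedding) ↔ g ∈ R.PJ K := by
      rw [← hπ]
      exact hf K
    exact ⟨h1 g, UJ_iff R syl par α K _ h1 g⟩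
  have hIs' : IsPi R α (piA R α) := by
    unfold piA
    have h1 : ∃ π, IsPi R α π := ⟨π, hIs⟩
    rw [dif_pos h1]
    exact h1.choose_spec
  refine ⟨hIs', hB, fun π' hπ' => ?_⟩
  ext1 i
  have h1 : R.PJ (({i} : Finset (Fin R.r)).map π'.toEmbedding) =
      R.PJ (({i} : Finset (Fin R.r)).map (piA R α).toEmbedding) := by
    ext g
    obtain ⟨g', rfl⟩ := α.surjective g
    rw [(hπ' {i} g').1, (hIs' {i} g').1]
  have h2 : ({i} : Finset (Fin R.r)).map π'.toEmbedding =
      ({i} : Finset (Fin R.r)).map (piA R α).toEmbedding :=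
    Finset.Subset.antisymm ((hPO _ _).1 h1.le) ((hPO _ _).1 h1.ge)
  rw [Finset.map_singleton, Finset.map_singleton] at h2
  exact Finset.singleton_injective h2

end Pool.Agent.PP.X1.H6
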